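import Pool.Agent.H564Z.NPDefs
import Pool.Agent.H564Z.NPShoot

set_option autoImplicit false

namespace Pool.Agent.Results.MP_dcb15c_an.ANonUnique

open Pool.Agent.H564Z.NP

/-- Q1 is false: for every `1 < p < 2` there are a bounded domain `Ω` in the plane,
`f ∈ C(closure Ω)` and `g ∈ C(∂Ω)` such that the Dirichlet problem `Δ^N_p u = f` in `Ω`, `u = g`
on `∂Ω` has two different viscosity solutions. -/
theorem result : ∀ p : ℝ, 1 < p → p < 2 →
    ∃ (Ω : Set (EuclideanSpace ℝ (Fin 2))) (f g u v : EuclideanSpace ℝ (Fin 2) → ℝ),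
      IsOpen Ω ∧ IsConnected Ω ∧ Bornology.IsBounded Ω ∧
      ContinuousOn f (closure Ω) ∧ ContinuousOn g (frontier Ω) ∧
      IsDirichletSol p Ω f g u ∧ IsDirichletSol p Ω f g v ∧ ∃ x ∈ Ω, u x ≠ v x :=
  fun _ hp1 hp2 => low_nonunique hp1 hp2

end Pool.Agent.Results.MP_dcb15c_an.ANonUnique
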